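import Pool.Agent.U214.RM.ExpB

/-!
# Unlinked sets of indices
-/

set_option autoImplicit false

namespace Pool.Agent.U214.RM

open Finset Pool.Agent.W262.RK Pool.Agent.W762.RK2

variable {r : ℕ} {J : Type} [Fintype J] [DecidableEq J]

lemma sb_inj {a b : Bool} (h : sb a = sb b) : a = b := by
  cases a <;> cases b <;> first | rfl | (exfalso; norm_num [sb] at h)

lemma sb_xor (a b : Bool) : sb (xor a b) = sb a * sb b := by
  cases a <;> cases b <;> norm_num [sb]

/-- the bits of a vector -/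
def fl (v : V r) (s : Fin r × Bool) : Bool := if s.2 = true then (v s.1).2 else (v s.1).1

lemma fl_inj {v w : V r} (h : fl v = fl w) : v = w := by
  funext l
  have h1 := congrFun h (l, true)
  have h2 := congrFun h (l, false)
  simp only [fl, if_true] at h1
  simp only [fl, Bool.false_eq_true, if_false] at h2
  exact Prod.ext h2 h1

lemma par_fl (v x : V r) : par (fun s => fl v s && fl x s) = pr x v := by
  apply sb_inj
  unfold pr
  rw [sb_par, sb_par, Fintype.prod_prod_type]
  refine prod_congr rfl fun l _ => ?_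
  rw [Fintype.prod_bool]
  unfold bb fl
  rw [sb_xor]
  simp only [if_true, Bool.false_eq_true, if_false]
  rw [Bool.and_comm (v l).1, Bool.and_comm (v l).2, mul_comm]

/-- the indices over the form `j` -/
noncomputable def Uj {cls : J → Fin 4} (U : Finset (Ir r cls)) (j : J) : Finset (Ir r cls) :=
  U.filter (fun i => i.1.1 = j)

/-- unlinked -/
def Unl {cls : J → Fin 4} (U : Finset (Ir r cls)) : Prop :=
  ∀ i ∈ U, ∀ i' ∈ U, L_r cls i i' = L_r cls i' i

omit [Fintype J] in
lemma Uj_eq {cls : J → Fin 4} {U : Finset (Ir r cls)} {j : J} {i i' : Ir r cls}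
    (hi : i ∈ Uj U j) (hi' : i' ∈ Uj U j) (h1 : i.1.2.1 = i'.1.2.1) (h2 : i.1.2.2 = i'.1.2.2) :
    i = i' := by
  unfold Uj at hi hi'
  rw [mem_filter] at hi hi'
  apply Subtype.ext
  exact Prod.ext (hi.2.trans hi'.2.symm) (Prod.ext h1 h2)

/-- the class 3 -/
lemma card3 {cls : J → Fin 4} {U : Finset (Ir r cls)} (hU : Unl U) (j : J) :
    (Uj U j).card ≤ 4 ^ r := by
  classical
  set f : Ir r cls → (Fin r × Bool → Bool) × (Fin r × Bool → Bool) :=
    fun i => (fl i.1.2.1, fl i.1.2.2) with hf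
  have h1 : ((Uj U j).image f).card = (Uj U j).card := by
    apply card_image_of_injOn
    intro i hi i' hi' h
    have h2 := congrArg Prod.fst h
    have h3 := congrArg Prod.snd h
    exact Uj_eq hi hi' (fl_inj h2) (fl_inj h3)
  have h2 := orth ((Uj U j).image f) ((Uj U j).image f) (by
    intro a ha b hb
    obtain ⟨i, hi, rfl⟩ := mem_image.1 ha
    obtain ⟨i', hi', rfl⟩ := mem_image.1 hb
    unfold om
    rw [hf]
    simp only
    rw [par_fl, par_fl]
    have h3 := hU i (mem_filter.1 hi).1 i' (mem_filter.1 hi').1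
    unfold L_r at h3
    rw [h3, Bool.xor_self])
  rw [h1, Fintype.card_prod, Fintype.card_fin, Fintype.card_bool] at h2
  have h3 : (4 : ℕ) ^ (r * 2) = 4 ^ r * 4 ^ r := by rw [mul_two, pow_add]
  rw [h3] at h2
  by_contra hcon
  push Not at hcon
  have := Nat.mul_lt_mul'' hcon hcon
  omega

/-- nonzero bits -/
def nz (v : V r) (l : Fin r) : Bool := decide (v l ≠ (false, false))

lemma A1_cls : ∀ (c : Fin 4) (v x : Bool × Bool), c ≠ 3 → A1 c v x = true →
    (v = (false, false) ∨ v = ec c) ∧ (x = (false, false) ∨ x = (ec c).swap) := by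
  decide

lemma Ar_cls {c : Fin 4} (hc : c ≠ 3) {v x : V r} (h : Ar c v x = true) (l : Fin r) :
    (v l = (false, false) ∨ v l = ec c) ∧ (x l = (false, false) ∨ x l = (ec c).swap) := by
  unfold Ar at h
  rw [Bool.and_eq_true] at h
  exact A1_cls c _ _ hc (of_decide_eq_true h.1 l)

lemma bb_cls : ∀ (c c' : Fin 4) (v x : Bool × Bool), c ≠ 3 → c' ≠ 3 → c ≠ c' →
    (v = (false, false) ∨ v = ec c) → (x = (false, false) ∨ x = (ec c').swap) →
    bb x v = (decide (v ≠ (false, false)) && decide (x ≠ (false, false))) := by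
  decide

lemma nz_inj {c : Fin 4} {v w : V r} (hv : ∀ l, v l = (false, false) ∨ v l = ec c)
    (hw : ∀ l, w l = (false, false) ∨ w l = ec c) (h : nz v = nz w) : v = w := by
  funext l
  have h1 := congrFun h l
  unfold nz at h1
  rcases hv l with h2 | h2 <;> rcases hw l with h3 | h3
  · rw [h2, h3]
  · rw [h2, h3] at h1 ⊢
    by_contra h4
    simp at h1
    exact h4 h1.symm
  · rw [h2, h3] at h1 ⊢
    by_contra h4
    simp at h1
    exact h4 h1
  · rw [h2, h3]

lemma nz_inj' {c : Fin 4} {v w : V r} (hv : ∀ l, v l = (false, false) ∨ v l = (ec c).swap)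
    (hw : ∀ l, w l = (false, false) ∨ w l = (ec c).swap) (h : nz v = nz w) : v = w := by
  funext l
  have h1 := congrFun h l
  unfold nz at h1
  rcases hv l with h2 | h2 <;> rcases hw l with h3 | h3
  · rw [h2, h3]
  · rw [h2, h3] at h1 ⊢
    by_contra h4
    rw [decide_eq_decide] at h1
    exact absurd rfl (h1.2 (Ne.symm h4))
  · rw [h2, h3] at h1 ⊢
    by_contra h4
    rw [decide_eq_decide] at h1
    exact absurd rfl (h1.1 h4)
  · rw [h2, h3]

/-- the reduced index -/
def rd {cls : J → Fin 4} (i : Ir r cls) : (Fin r → Bool) × (Fin r → Bool) :=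
  (nz i.1.2.1, nz i.1.2.2)

omit [Fintype J] [DecidableEq J] in
lemma rd_inj {cls : J → Fin 4} {j : J} (hj : cls j ≠ 3) {i i' : Ir r cls} (hi : i.1.1 = j)
    (hi' : i'.1.1 = j) (h : rd i = rd i') : i = i' := by
  have h1 := congrArg Prod.fst h
  have h2 := congrArg Prod.snd h
  have a1 := Ar_cls (by rw [hi]; exact hj) i.2
  have a2 := Ar_cls (by rw [hi']; exact hj) i'.2
  rw [hi] at a1
  rw [hi'] at a2
  apply Subtype.ext
  refine Prod.ext (hi.trans hi'.symm) (Prod.ext ?_ ?_)
  · exact nz_inj (fun l => (a1 l).1) (fun l => (a2 l).1) h1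
  · exact nz_inj' (fun l => (a1 l).2) (fun l => (a2 l).2) h2

lemma card_rd {cls : J → Fin 4} (U : Finset (Ir r cls)) {j : J} (hj : cls j ≠ 3) :
    ((Uj U j).image rd).card = (Uj U j).card := by
  classical
  apply card_image_of_injOn
  intro i hi i' hi' h
  exact rd_inj hj (mem_filter.1 hi).2 (mem_filter.1 hi').2 h

/-- two different classes -/
lemma card_mul {cls : J → Fin 4} {U : Finset (Ir r cls)} (hU : Unl U) {j j' : J}
    (hj : cls j ≠ 3) (hj' : cls j' ≠ 3) (hne : cls j ≠ cls j') :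
    (Uj U j).card * (Uj U j').card ≤ 4 ^ r := by
  classical
  rw [← card_rd U hj, ← card_rd U hj']
  have h2 := orth ((Uj U j).image rd) ((Uj U j').image rd) (by
    intro a ha b hb
    obtain ⟨i, hi, rfl⟩ := mem_image.1 ha
    obtain ⟨i', hi', rfl⟩ := mem_image.1 hb
    have ei := (mem_filter.1 hi).2
    have ei' := (mem_filter.1 hi').2
    have a1 := Ar_cls (by rw [ei]; exact hj) i.2
    have a2 := Ar_cls (by rw [ei']; exact hj') i'.2
    rw [ei] at a1
    rw [ei'] at a2
    have h3 := hU i (mem_filter.1 hi).1 i' (mem_filter.1 hi').1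
    unfold L_r at h3
    have e1 : pr i'.1.2.2 i.1.2.1 = par fun l => (rd i).1 l && (rd i').2 l := by
      unfold pr
      congr 1
      funext l
      exact bb_cls _ _ _ _ hj hj' hne (a1 l).1 (a2 l).2
    have e2 : pr i.1.2.2 i'.1.2.1 = par fun l => (rd i').1 l && (rd i).2 l := by
      unfold pr
      congr 1
      funext l
      exact bb_cls _ _ _ _ hj' hj (Ne.symm hne) (a2 l).1 (a1 l).2
    unfold om
    rw [← e1, ← e2, h3, Bool.xor_self])
  rwa [Fintype.card_fin] at h2

/-- the trivial bound -/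
lemma cardc {cls : J → Fin 4} (U : Finset (Ir r cls)) {j : J} (hj : cls j ≠ 3) :
    (Uj U j).card ≤ 4 ^ r := by
  classical
  rw [← card_rd U hj]
  refine (card_le_univ _).trans ?_
  rw [Fintype.card_prod, Fintype.card_fun, Fintype.card_fin, Fintype.card_bool, ← mul_pow]
  exact le_rfl

/-- the total weight by the forms -/
lemma sum_w {cls : J → Fin 4} (U : Finset (Ir r cls)) :
    ∑ i ∈ U, w_r cls i = ∑ j, wr r (cls j) * ((Uj U j).card : ℝ) := by
  classical
  rw [← sum_fiberwise U (fun i => i.1.1)]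
  refine sum_congr rfl fun j _ => ?_
  have h1 : ∀ i ∈ U.filter (fun i => i.1.1 = j), w_r cls i = wr r (cls j) := by
    intro i hi
    unfold w_r
    rw [(mem_filter.1 hi).2]
  rw [sum_congr rfl h1, sum_const, nsmul_eq_mul, mul_comm]
  rfl

/-- numbers with small products -/
lemma three {N a b c : ℕ} (ha : a ≤ N) (hb : b ≤ N) (hc : c ≤ N) (hab : a * b ≤ N)
    (hbc : b * c ≤ N) (hac : a * c ≤ N) : a + b + c ≤ N + 2 := by
  rcases Nat.eq_zero_or_pos a with h1 | h1
  · subst h1
    rcases Nat.eq_zero_or_pos b with h2 | h2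
    · omega
    · rcases Nat.eq_zero_or_pos c with h3 | h3
      · omega
      · nlinarith
  rcases Nat.eq_zero_or_pos b with h2 | h2
  · subst h2
    rcases Nat.eq_zero_or_pos c with h3 | h3
    · omega
    · nlinarith
  rcases Nat.eq_zero_or_pos c with h3 | h3
  · subst h3
    nlinarith
  -- all positive
  have key : ∀ x y w : ℕ, 1 ≤ x → 1 ≤ y → 1 ≤ w → w ≤ y → w ≤ x → x * y ≤ N →
      x + y + w ≤ N + 2 := by
    intro x y w hx hy hw hwy hwx hxy
    rcases Nat.lt_or_ge w 2 with h | h
    · have : w = 1 := by omega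
      subst this
      nlinarith
    · have hx2 : 2 ≤ x := by omega
      have hy2 : 2 ≤ y := by omega
      rcases Nat.le_total x y with h4 | h4
      · nlinarith
      · nlinarith
  rcases Nat.le_total a b with h4 | h4
  · rcases Nat.le_total a c with h5 | h5
    · have := key b c a h2 h3 h1 h5 h4 hbc
      omega
    · have := key a b c h1 h2 h3 (by omega) h5 hab
      omega
  · rcases Nat.le_total b c with h5 | h5
    · have := key a c b h1 h3 h2 h5 h4 hac
      omega
    · have := key a b c h1 h2 h3 h5 (by omega) hab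
      omega

/-- the largest unlinked set -/
theorem comb_r {cls : J → Fin 4} (n : ℕ)
    (hn : ∀ k, k ≠ 3 → (univ.filter (fun j => cls j = k)).card = n)
    {U : Finset (Ir r cls)} (hU : Unl U) :
    ∑ i ∈ U, w_r cls i ≤ (Fintype.card J : ℝ) + n * (2 ^ r + 2 / 2 ^ r - 3) := by
  classical
  rw [sum_w]
  set P : Fin 4 → Finset J := fun k => univ.filter (fun j => cls j = k) with hP
  have hsplit : ∀ f : J → ℝ, ∑ j, f j = ∑ k : Fin 4, ∑ j ∈ P k, f j := fun f =>
    (sum_fiberwise univ cls f).symm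
  have hcard : (Fintype.card J : ℝ) = 3 * n + (P 3).card := by
    have h1 := hsplit (fun _ => (1 : ℝ))
    simp only [sum_const, nsmul_eq_mul, mul_one, card_univ] at h1
    rw [h1, Fin.sum_univ_four]
    have e0 : (P 0).card = n := hn 0 (by decide)
    have e1 : (P 1).card = n := hn 1 (by decide)
    have e2 : (P 2).card = n := hn 2 (by decide)
    rw [e0, e1, e2]
    ring
  rw [hsplit, Fin.sum_univ_four, hcard]
  have h3 : ∑ j ∈ P 3, wr r (cls j) * ((Uj U j).card : ℝ) ≤ (P 3).card := by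
    have h4 : ∀ j ∈ P 3, wr r (cls j) * ((Uj U j).card : ℝ) ≤ 1 := by
      intro j hj
      have hj' : cls j = 3 := (mem_filter.1 hj).2
      have h5 : ((Uj U j).card : ℝ) ≤ 4 ^ r := by exact_mod_cast card3 hU j
      have h6 : wr r (cls j) = (1 / 4) ^ r := by
        unfold wr wc
        rw [hj', if_pos rfl]
      rw [h6]
      calc (1 / 4 : ℝ) ^ r * (Uj U j).card ≤ (1 / 4) ^ r * 4 ^ r :=
            mul_le_mul_of_nonneg_left h5 (by positivity)
        _ = 1 := by rw [← mul_pow]; norm_num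
    calc _ ≤ ∑ j ∈ P 3, (1 : ℝ) := sum_le_sum h4
      _ = _ := by simp
  have hw : ∀ k, k ≠ 3 → ∀ j ∈ P k, wr r (cls j) * ((Uj U j).card : ℝ) =
      (1 / 2) ^ r * ((Uj U j).card : ℝ) := by
    intro k hk j hj
    have hj' : cls j = k := (mem_filter.1 hj).2
    unfold wr wc
    rw [hj', if_neg hk]
  rcases Nat.eq_zero_or_pos n with h0 | h0
  · have e : ∀ k, k ≠ 3 → P k = ∅ := fun k hk => card_eq_zero.1 ((hn k hk).trans h0)
    rw [e 0 (by decide), e 1 (by decide), e 2 (by decide), h0]
    simp only [sum_empty, Nat.cast_zero]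
    linarith
  · have hne : ∀ k, k ≠ 3 → (P k).Nonempty := fun k hk => card_pos.1 (by rw [hn k hk]; exact h0)
    obtain ⟨j0, hj0, hm0⟩ := exists_max_image (P 0) (fun j => (Uj U j).card) (hne 0 (by decide))
    obtain ⟨j1, hj1, hm1⟩ := exists_max_image (P 1) (fun j => (Uj U j).card) (hne 1 (by decide))
    obtain ⟨j2, hj2, hm2⟩ := exists_max_image (P 2) (fun j => (Uj U j).card) (hne 2 (by decide))
    have c0 : cls j0 = 0 := (mem_filter.1 hj0).2
    have c1 : cls j1 = 1 := (mem_filter.1 hj1).2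
    have c2 : cls j2 = 2 := (mem_filter.1 hj2).2
    have n0 : cls j0 ≠ 3 := by rw [c0]; decide
    have n1 : cls j1 ≠ 3 := by rw [c1]; decide
    have n2 : cls j2 ≠ 3 := by rw [c2]; decide
    have ht := three (cardc U n0) (cardc U n1) (cardc U n2)
      (card_mul hU n0 n1 (by rw [c0, c1]; decide)) (card_mul hU n1 n2 (by rw [c1, c2]; decide))
      (card_mul hU n0 n2 (by rw [c0, c2]; decide))
    have hs : ∀ (k : Fin 4) (jk : J), k ≠ 3 → (∀ j ∈ P k, (Uj U j).card ≤ (Uj U jk).card) →
        ∑ j ∈ P k, wr r (cls j) * ((Uj U j).card : ℝ) ≤ n * ((1 / 2) ^ r * (Uj U jk).card) := by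
      intro k jk hk hm
      rw [sum_congr rfl (hw k hk)]
      calc ∑ j ∈ P k, (1 / 2 : ℝ) ^ r * ((Uj U j).card : ℝ)
          ≤ ∑ j ∈ P k, (1 / 2 : ℝ) ^ r * ((Uj U jk).card : ℝ) := by
            refine sum_le_sum fun j hj => ?_
            refine mul_le_mul_of_nonneg_left ?_ (by positivity)
            exact_mod_cast hm j hj
        _ = _ := by
            rw [sum_const, nsmul_eq_mul, hn k hk]
    have s0 := hs 0 j0 (by decide) hm0
    have s1 := hs 1 j1 (by decide) hm1
    have s2 := hs 2 j2 (by decide) hm2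
    have ht' : ((Uj U j0).card : ℝ) + (Uj U j1).card + (Uj U j2).card ≤ 4 ^ r + 2 := by
      exact_mod_cast ht
    have hfin : (n : ℝ) * ((1 / 2) ^ r * ((Uj U j0).card + (Uj U j1).card + (Uj U j2).card)) ≤
        n * (2 ^ r + 2 / 2 ^ r) := by
      refine mul_le_mul_of_nonneg_left ?_ (Nat.cast_nonneg n)
      calc (1 / 2 : ℝ) ^ r * ((Uj U j0).card + (Uj U j1).card + (Uj U j2).card)
          ≤ (1 / 2) ^ r * (4 ^ r + 2) := mul_le_mul_of_nonneg_left ht' (by positivity)
        _ = 2 ^ r + 2 / 2 ^ r := by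
            have e4 : (4 : ℝ) ^ r = 2 ^ r * 2 ^ r := by rw [← mul_pow]; norm_num
            rw [e4, div_pow, one_pow]
            field_simp
    linarith

end Pool.Agent.U214.RM
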