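import Pool.Agent.U214.RM.ExpA

/-!
# Expansion of the powers of the local counts into symbols
-/

set_option autoImplicit false

namespace Pool.Agent.U214.RM

open Finset Pool.Agent.W262.RK Pool.Agent.W108.RK Pool.Agent.W762.RK2

variable {r : ℕ}

section big

variable {J : Type} [Fintype J] [DecidableEq J] {z y : ℕ}

/-- first bit -/
def b1r (l : Fin r) (x : Option (J × V r)) : Bool := x.elim false fun a => (a.2 l).1

/-- second bit -/
def b2r (l : Fin r) (x : Option (J × V r)) : Bool := x.elim false fun a => (a.2 l).2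

/-- first divisor -/
def D1r (ξ : Pr z y → Option (J × V r)) (l : Fin r) : ℕ := nb fun p => b1r l (ξ p)

/-- second divisor -/
def D2r (ξ : Pr z y → Option (J × V r)) (l : Fin r) : ℕ := nb fun p => b2r l (ξ p)

/-- the tuple -/
def SSr (ξ : Pr z y → Option (J × V r)) : J → ℕ := Dl fun p => (ξ p).map Prod.fst

lemma D1r_dvd (ξ : Pr z y → Option (J × V r)) (l : Fin r) : D1r ξ l ∣ ∏ j, SSr ξ j := by
  unfold SSr D1r
  rw [prod_Dl]
  refine nb_dvd fun p hp => ?_
  cases h : ξ p with
  | none => rw [h] at hp; exact absurd hp (by simp [b1r])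
  | some a => rfl

lemma D2r_dvd (ξ : Pr z y → Option (J × V r)) (l : Fin r) : D2r ξ l ∣ ∏ j, SSr ξ j := by
  unfold SSr D2r
  rw [prod_Dl]
  refine nb_dvd fun p hp => ?_
  cases h : ξ p with
  | none => rw [h] at hp; exact absurd hp (by simp [b2r])
  | some a => rfl

lemma prod_SSr_ne (ξ : Pr z y → Option (J × V r)) : ∏ j, SSr ξ j ≠ 0 := by
  unfold SSr
  rw [prod_Dl]
  exact nb_ne_zero _

/-- the families of pairs of divisors -/
def DD (r : ℕ) (m : ℕ) : Finset (Fin r → ℕ × ℕ) :=
  Fintype.piFinset fun _ => m.divisors ×ˢ m.divisors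

lemma sum_bigr (F : (J → ℕ) → (Fin r → ℕ × ℕ) → ℝ) :
    ∑ s ∈ Tup J z y, ∑ d ∈ DD r (∏ j, s j), F s d =
      ∑ ξ : Pr z y → Option (J × V r), F (SSr ξ) (fun l => (D1r ξ l, D2r ξ l)) := by
  classical
  rw [Finset.sum_sigma']
  symm
  refine Finset.sum_bij (fun ξ _ => ⟨SSr ξ, fun l => (D1r ξ l, D2r ξ l)⟩) ?_ ?_ ?_
    (fun _ _ => rfl)
  · intro ξ _
    rw [Finset.mem_sigma]
    refine ⟨Dl_mem _, ?_⟩
    show (fun l => (D1r ξ l, D2r ξ l)) ∈ DD r (∏ j, SSr ξ j)
    unfold DD
    rw [Fintype.mem_piFinset]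
    intro l
    rw [Finset.mem_product]
    exact ⟨Nat.mem_divisors.2 ⟨D1r_dvd ξ l, prod_SSr_ne ξ⟩,
      Nat.mem_divisors.2 ⟨D2r_dvd ξ l, prod_SSr_ne ξ⟩⟩
  · intro ξ _ ξ' _ h
    have h1 : SSr ξ = SSr ξ' := congrArg Sigma.fst h
    have h2 : (fun l => (D1r ξ l, D2r ξ l)) = (fun l => (D1r ξ' l, D2r ξ' l)) :=
      congrArg Sigma.snd h
    have h3 : ∀ l, D1r ξ l = D1r ξ' l := fun l => congrArg Prod.fst (congrFun h2 l)
    have h4 : ∀ l, D2r ξ l = D2r ξ' l := fun l => congrArg Prod.snd (congrFun h2 l)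
    funext p
    have e1 : (ξ p).map Prod.fst = (ξ' p).map Prod.fst := congrFun (Dl_inj h1) p
    have e2 : ∀ l, b1r l (ξ p) = b1r l (ξ' p) := fun l => congrFun (nb_inj (h3 l)) p
    have e3 : ∀ l, b2r l (ξ p) = b2r l (ξ' p) := fun l => congrFun (nb_inj (h4 l)) p
    cases hx : ξ p with
    | none =>
      cases hx' : ξ' p with
      | none => rfl
      | some a' => rw [hx, hx'] at e1; exact absurd e1 (by simp)
    | some a =>
      cases hx' : ξ' p with
      | none => rw [hx, hx'] at e1; exact absurd e1 (by simp)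
      | some a' =>
        rw [hx, hx'] at e1
        obtain ⟨j, v⟩ := a
        obtain ⟨j', v'⟩ := a'
        have e4 : j = j' := by simpa using e1
        have e5 : v = v' := by
          funext l
          have f2 := e2 l
          have f3 := e3 l
          rw [hx, hx'] at f2 f3
          exact Prod.ext f2 f3
        rw [e4, e5]
  · rintro ⟨s, d⟩ hs
    rw [Finset.mem_sigma] at hs
    obtain ⟨hs, hd⟩ := hs
    have hd' : ∀ l, (d l).1 ∣ ∏ j, s j ∧ (d l).2 ∣ ∏ j, s j := by
      intro l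
      have h1 : d ∈ DD r (∏ j, s j) := hd
      unfold DD at h1
      have h2 := Fintype.mem_piFinset.1 h1 l
      rw [Finset.mem_product] at h2
      exact ⟨(Nat.mem_divisors.1 h2.1).1, (Nat.mem_divisors.1 h2.2).1⟩
    simp only at hs hd'
    have hPP : ∏ j, s j ∣ PP z y := by
      rw [← Dl_lab hs, prod_Dl]
      exact nb_dvd_PP _
    have hn : ∀ p : Pr z y, lab s p = none → ¬ (p : ℕ) ∣ ∏ j, s j := by
      intro p hp h
      rw [← Dl_lab hs, prod_Dl, dvd_nb, hp] at h
      exact absurd h (by simp)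
    refine ⟨fun p => (lab s p).map fun j =>
      (j, fun l => (decide ((p : ℕ) ∣ (d l).1), decide ((p : ℕ) ∣ (d l).2))),
      Finset.mem_univ _, ?_⟩
    have e1 : SSr (r := r) (fun p : Pr z y => (lab s p).map fun j =>
        (j, fun l => (decide ((p : ℕ) ∣ (d l).1), decide ((p : ℕ) ∣ (d l).2)))) = s := by
      unfold SSr
      conv_rhs => rw [← Dl_lab hs]
      congr 1
      funext p
      show ((lab s p).map fun j =>
        (j, fun l => (decide ((p : ℕ) ∣ (d l).1), decide ((p : ℕ) ∣ (d l).2)))).map Prod.fst = _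
      cases lab s p <;> rfl
    have e2 : ∀ l, D1r (fun p : Pr z y => (lab s p).map fun j =>
        (j, fun l => (decide ((p : ℕ) ∣ (d l).1), decide ((p : ℕ) ∣ (d l).2)))) l = (d l).1 := by
      intro l
      unfold D1r
      conv_rhs => rw [← nb_eq ((hd' l).1.trans hPP)]
      congr 1
      funext p
      show b1r l ((lab s p).map fun j =>
        (j, fun l => (decide ((p : ℕ) ∣ (d l).1), decide ((p : ℕ) ∣ (d l).2)))) = _
      cases hp : lab s p with
      | none =>
        have : ¬ (p : ℕ) ∣ (d l).1 := fun h => hn p hp (h.trans (hd' l).1)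
        simp [b1r, this]
      | some j => rfl
    have e3 : ∀ l, D2r (fun p : Pr z y => (lab s p).map fun j =>
        (j, fun l => (decide ((p : ℕ) ∣ (d l).1), decide ((p : ℕ) ∣ (d l).2)))) l = (d l).2 := by
      intro l
      unfold D2r
      conv_rhs => rw [← nb_eq ((hd' l).2.trans hPP)]
      congr 1
      funext p
      show b2r l ((lab s p).map fun j =>
        (j, fun l => (decide ((p : ℕ) ∣ (d l).1), decide ((p : ℕ) ∣ (d l).2)))) = _
      cases hp : lab s p with
      | none =>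
        have : ¬ (p : ℕ) ∣ (d l).2 := fun h => hn p hp (h.trans (hd' l).2)
        simp [b2r, this]
      | some j => rfl
    have e4 : (fun l => (D1r (fun p : Pr z y => (lab s p).map fun j =>
        (j, fun l => (decide ((p : ℕ) ∣ (d l).1), decide ((p : ℕ) ∣ (d l).2)))) l,
        D2r (fun p : Pr z y => (lab s p).map fun j =>
        (j, fun l => (decide ((p : ℕ) ∣ (d l).1), decide ((p : ℕ) ∣ (d l).2)))) l)) = d := by
      funext l
      rw [e2 l, e3 l]
    rw [e1, e4]

end big

section average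

variable {J : Type} [Fintype J] [DecidableEq J] {z y : ℕ}

/-- the average of the power of `NL` over the signs -/
noncomputable def NBr (r : ℕ) (cls : J → Fin 4) (κ : J → Fin 3 → ℤ) (s : J → ℕ) : ℝ :=
  (1 / 2) ^ (P3 cls s).card * ∑ E ∈ (P3 cls s).powerset, (NL (∏ j, s j) (LLs cls κ s E) : ℝ) ^ r

lemma NBr_nonneg (r : ℕ) (cls : J → Fin 4) (κ : J → Fin 3 → ℤ) (s : J → ℕ) :
    0 ≤ NBr r cls κ s := by
  unfold NBr
  exact mul_nonneg (by positivity) (sum_nonneg fun _ _ => pow_nonneg (Nat.cast_nonneg _) _)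

lemma NBr_eq (r : ℕ) (cls : J → Fin 4) (k : J → Fin 3 → ℤ) {s : J → ℕ} (hs : s ∈ Tup J z y) :
    NBr r cls k s = ∑ d ∈ DD r (∏ j, s j),
      ∏ p ∈ (∏ j, s j).primeFactors, (∏ l, Il cls k s (d l) true p +
        ∏ l, Il cls k s (d l) false p) / 2 := by
  classical
  have hne : ∏ j, s j ≠ 0 := Finset.prod_ne_zero_iff.2 fun j _ => (sqf_of_mem hs j).ne_zero
  have h1 : ∀ E : Finset ℕ, (NL (∏ j, s j) (LLs cls k s E) : ℝ) =
      ∑ d ∈ (∏ j, s j).divisors ×ˢ (∏ j, s j).divisors,
        ∏ p ∈ (∏ j, s j).primeFactors, Il cls k s d (decide (p ∈ E)) p := by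
    intro E
    unfold NL
    rw [Finset.card_filter]
    push_cast
    refine Finset.sum_congr rfl fun d _ => ?_
    unfold Il
    rw [prod_ind]
    unfold ind LLs
    congr
  have h2 : ∀ E : Finset ℕ, (NL (∏ j, s j) (LLs cls k s E) : ℝ) ^ r =
      ∑ d ∈ DD r (∏ j, s j), ∏ p ∈ (∏ j, s j).primeFactors,
        ∏ l, Il cls k s (d l) (decide (p ∈ E)) p := by
    intro E
    have h3 : (NL (∏ j, s j) (LLs cls k s E) : ℝ) ^ r =
        ∏ _l : Fin r, (NL (∏ j, s j) (LLs cls k s E) : ℝ) := by
      rw [prod_const, card_univ, Fintype.card_fin]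
    rw [h3, h1 E]
    unfold DD
    rw [Finset.prod_univ_sum]
    refine Finset.sum_congr rfl fun d _ => ?_
    rw [Finset.prod_comm]
  unfold NBr
  rw [Finset.sum_congr rfl fun E _ => h2 E, Finset.sum_comm, Finset.mul_sum]
  refine Finset.sum_congr rfl fun d _ => ?_
  refine avg (P3 cls s) (∏ j, s j).primeFactors ?_ (fun b p => ∏ l, Il cls k s (d l) b p) ?_
  · unfold P3
    refine Nat.primeFactors_mono ?_ hne
    exact Finset.prod_dvd_prod_of_subset _ _ _ (Finset.filter_subset _ _)
  · intro p hp hpA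
    refine prod_congr rfl fun l _ => ?_
    unfold Il
    congr 1
    refine propext (forall_congr' fun j => ?_)
    refine forall_congr' fun hj => ?_
    rw [LL_neg]
    intro hc
    apply hpA
    unfold P3
    refine Nat.mem_primeFactors.2 ⟨Nat.prime_of_mem_primeFactors hp, ?_, ?_⟩
    · exact hj.trans (Finset.dvd_prod_of_mem _ (Finset.mem_filter.2 ⟨Finset.mem_univ _, hc⟩))
    · exact Finset.prod_ne_zero_iff.2 fun j _ => (sqf_of_mem hs j).ne_zero

end average

section final

variable {J : Type} [Fintype J] [DecidableEq J] {z y : ℕ}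

/-- the index set -/
def Ir (r : ℕ) (cls : J → Fin 4) : Type :=
  {i : J × V r × V r // Ar (cls i.1) i.2.1 i.2.2 = true}

noncomputable instance (cls : J → Fin 4) : Fintype (Ir r cls) := by unfold Ir; infer_instance

noncomputable instance (cls : J → Fin 4) : DecidableEq (Ir r cls) := Classical.decEq _

/-- the weights -/
noncomputable def w_r (cls : J → Fin 4) (i : Ir r cls) : ℝ := wr r (cls i.1.1)

/-- the links -/
def L_r (cls : J → Fin 4) (i i' : Ir r cls) : Bool := pr i'.1.2.2 i.1.2.1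

/-- the constants -/
def κ_r (cls : J → Fin 4) (κ : J → Fin 3 → ℤ) (i : Ir r cls) : ℤ :=
  kr (cls i.1.1) (κ i.1.1) i.1.2.1 i.1.2.2

/-- the local term -/
noncomputable def Tmr (cls : J → Fin 4) (k : J → Fin 3 → ℤ) (c : ℕ)
    (ξ : Pr z y → Option (J × V r)) (p : Pr z y) : ℝ :=
  (ξ p).elim 1 fun a => 1 / ((p : ℝ) - c) * ((∏ l, ind (LL (cls a.1) (k a.1) true p (a.2 l).1
    (a.2 l).2 (sgn p (D1r ξ l)) (sgn p (D2r ξ l))) + ∏ l, ind (LL (cls a.1) (k a.1) false p
    (a.2 l).1 (a.2 l).2 (sgn p (D1r ξ l)) (sgn p (D2r ξ l)))) / 2)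

lemma lhs_eqr (cls : J → Fin 4) (k : J → Fin 3 → ℤ) (c : ℕ) :
    ∑ s ∈ Tup J z y, NBr r cls k s * ∏ j, gw 1 c (s j) =
      ∑ ξ : Pr z y → Option (J × V r), ∏ p, Tmr cls k c ξ p := by
  have h1 : ∀ s ∈ Tup J z y, NBr r cls k s * ∏ j, gw 1 c (s j) =
      ∑ d ∈ DD r (∏ j, s j),
        (∏ p ∈ (∏ j, s j).primeFactors, (∏ l, Il cls k s (d l) true p +
          ∏ l, Il cls k s (d l) false p) / 2) * ∏ j, gw 1 c (s j) := by
    intro s hs
    rw [NBr_eq r cls k hs, Finset.sum_mul]
  rw [Finset.sum_congr rfl h1, sum_bigr fun s d =>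
    (∏ p ∈ (∏ j, s j).primeFactors, (∏ l, Il cls k s (d l) true p +
          ∏ l, Il cls k s (d l) false p) / 2) * ∏ j, gw 1 c (s j)]
  refine Finset.sum_congr rfl fun ξ _ => ?_
  have h2 : ∏ j, gw 1 c (SSr ξ j) = ∏ p : Pr z y, ((ξ p).map Prod.fst).elim 1
      fun _ => 1 / ((p : ℝ) - c) := prod_gw (fun _ => 1) c _
  have h3 : ∏ j, SSr ξ j = nb fun p => ((ξ p).map Prod.fst).isSome := prod_Dl _
  rw [h2, h3, prod_pf _ fun p => (∏ l, Il cls k (SSr ξ) (D1r ξ l, D2r ξ l) true p +
    ∏ l, Il cls k (SSr ξ) (D1r ξ l, D2r ξ l) false p) / 2, ← Finset.prod_mul_distrib]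
  refine Finset.prod_congr rfl fun p _ => ?_
  unfold Tmr
  cases hx : ξ p with
  | none => simp
  | some a =>
    have h4 : ∀ neg l, Il cls k (SSr ξ) (D1r ξ l, D2r ξ l) neg p =
        ind (LL (cls a.1) (k a.1) neg p (a.2 l).1 (a.2 l).2 (sgn p (D1r ξ l))
          (sgn p (D2r ξ l))) := by
      intro neg l
      unfold Il
      have e1 : dv p (D1r ξ l : ℤ) = (a.2 l).1 := by
        have : b1r l (ξ p) = (a.2 l).1 := by rw [hx]; rfl
        rw [← this]
        unfold dv
        rw [Bool.eq_iff_iff, decide_eq_true_iff, Int.natCast_dvd_natCast]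
        exact dvd_nb _ p
      have e2 : dv p (D2r ξ l : ℤ) = (a.2 l).2 := by
        have : b2r l (ξ p) = (a.2 l).2 := by rw [hx]; rfl
        rw [← this]
        unfold dv
        rw [Bool.eq_iff_iff, decide_eq_true_iff, Int.natCast_dvd_natCast]
        exact dvd_nb _ p
      have e3 : ∀ j, (p : ℕ) ∣ SSr ξ j ↔ j = a.1 := by
        intro j
        unfold SSr Dl
        rw [dvd_nb, decide_eq_true_iff]
        show (ξ p).map Prod.fst = some j ↔ j = a.1
        rw [hx]
        simp [eq_comm]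
      congr 1
      simp only [e1, e2, e3, forall_eq]
    simp only [h4]
    simp only [Option.map_some, Option.isSome_some, if_true, Option.elim]
    ring

lemma sum_Ir (cls : J → Fin 4) (F : J × V r × V r → ℝ) :
    ∑ i : Ir r cls, F i.1 = ∑ q, if Ar (cls q.1) q.2.1 q.2.2 = true then F q else 0 := by
  rw [← Finset.sum_filter]
  exact (Finset.sum_subtype (univ.filter fun q : J × V r × V r =>
    Ar (cls q.1) q.2.1 q.2.2 = true) (fun x => by simp) F).symm

/-- forget the character -/
def fgr {cls : J → Fin 4} (x : Option (Ir r cls)) : Option (J × V r) :=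
  x.map fun i => (i.1.1, i.1.2.1)

/-- the local factor -/
noncomputable def Gr (cls : J → Fin 4) (k : J → Fin 3 → ℤ) (c : ℕ)
    (ξ : Pr z y → Option (J × V r)) (p : Pr z y) (x : Option (Ir r cls)) : ℝ :=
  x.elim 1 fun i => 1 / ((p : ℝ) - c) * (w_r cls i * (Jr (κ_r cls k i) p *
    ∏ l, ((if (i.1.2.2 l).1 = true then sg (sgn p (D1r ξ l)) else 1) *
      (if (i.1.2.2 l).2 = true then sg (sgn p (D2r ξ l)) else 1))))

lemma sum_Gr (cls : J → Fin 4) (k : J → Fin 3 → ℤ) (c : ℕ)
    (ξ : Pr z y → Option (J × V r)) (p : Pr z y) (hk : ∀ j i, ¬ ((p : ℕ) : ℤ) ∣ k j i) :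
    ∑ x ∈ univ.filter (fun x : Option (Ir r cls) => fgr x = ξ p), Gr cls k c ξ p x =
      Tmr cls k c ξ p := by
  rw [Finset.sum_filter, Fintype.sum_option]
  unfold Tmr
  cases hx : ξ p with
  | none => simp [fgr, Gr]
  | some a =>
    obtain ⟨j, v⟩ := a
    have h0 : (if fgr (none : Option (Ir r cls)) = some (j, v) then Gr cls k c ξ p none
        else 0) = 0 := by
      rw [if_neg]
      simp [fgr]
    rw [h0, zero_add]
    set F : J × V r × V r → ℝ := fun q : J × V r × V r =>
          if q.1 = j ∧ q.2.1 = v then 1 / ((p : ℝ) - c) * (wr r (cls q.1) *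
            (Jr (kr (cls q.1) (k q.1) q.2.1 q.2.2) p *
            ∏ l, ((if (q.2.2 l).1 = true then sg (sgn p (D1r ξ l)) else 1) *
            (if (q.2.2 l).2 = true then sg (sgn p (D2r ξ l)) else 1)))) else 0 with hF
    have h1 : ∀ i : Ir r cls, (if fgr (some i) = some (j, v) then Gr cls k c ξ p (some i)
        else 0) = F i.1 := by
      intro i
      refine if_congr ?_ rfl rfl
      simp only [fgr, Option.map_some, Option.some.injEq, Prod.mk.injEq]
    refine (Finset.sum_congr rfl fun i _ => h1 i).trans ((sum_Ir cls F).trans ?_)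
    rw [Fintype.sum_prod_type, Finset.sum_eq_single j]
    · rw [Fintype.sum_prod_type, Finset.sum_eq_single v]
      · show _ = 1 / ((p : ℝ) - c) * _
        rw [loc_r (cls j) (k j) (Pr_prime p) (hk j) v, Finset.mul_sum]
        refine Finset.sum_congr rfl fun x _ => ?_
        simp only [hF, and_self, if_true, mul_ite, mul_zero]
      · intro v' _ hv'
        refine Finset.sum_eq_zero fun x _ => ?_
        simp [hF, hv']
      · intro h
        exact absurd (Finset.mem_univ _) h
    · intro j' _ hj'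
      refine Finset.sum_eq_zero fun x _ => ?_
      simp [hF, hj']
    · intro h
      exact absurd (Finset.mem_univ _) h

lemma Ar_orth {c : Fin 4} {v x : V r} (h : Ar c v x = true) : pr x v = false := by
  unfold Ar at h
  rw [Bool.and_eq_true] at h
  simpa using h.2

/-- one factor of the symbol -/
lemma bits_r (q p : Pr z y) (x v : V r) (h : q = p → pr x v = false) :
    (if pr x v = true then Jr (q : ℕ) p else 1) =
      ∏ l, ((if (x l).1 = true then (if q ≠ p ∧ (v l).1 = true then Jr (q : ℕ) p else 1) else 1) *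
      (if (x l).2 = true then (if q ≠ p ∧ (v l).2 = true then Jr (q : ℕ) p else 1) else 1)) := by
  by_cases hqp : q = p
  · rw [h hqp]
    simp [hqp]
  · have hJ : Jr (q : ℕ) p * Jr (q : ℕ) p = 1 := by
      have hnd : ¬ ((p : ℕ) : ℤ) ∣ ((q : ℕ) : ℤ) := by
        rw [Int.natCast_dvd_natCast]
        intro hd
        exact hqp (Subtype.ext ((Nat.prime_dvd_prime_iff_eq (Pr_prime p) (Pr_prime q)).1 hd).symm)
      rw [← sg_sg0 (Pr_prime p) hnd]
      unfold sg
      split_ifs <;> norm_num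
    unfold pr
    rw [← prod_par hJ]
    refine prod_congr rfl fun l _ => ?_
    unfold bb
    cases (x l).1 <;> cases (x l).2 <;> cases (v l).1 <;> cases (v l).2 <;> simp [hqp, hJ]

lemma rhs_termr (cls : J → Fin 4) (k : J → Fin 3 → ℤ) (c : ℕ)
    (ξ : Pr z y → Option (J × V r)) (l : Pr z y → Option (Ir r cls))
    (h : ∀ p, fgr (l p) = ξ p) :
    (∏ i, gw (w_r cls i) c (Dl l i)) * Pool.Agent.W262.RK.Sym (L_r cls) (κ_r cls k) (Dl l) =
      ∏ p, Gr cls k c ξ p (l p) := by
  rw [prod_gw, Sym_Dl, ← Finset.prod_mul_distrib, ← Finset.prod_mul_distrib]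
  refine Finset.prod_congr rfl fun p _ => ?_
  cases hl : l p with
  | none =>
    have h0 : ∀ q, lk (L_r cls) (l q) none = false := by
      intro q
      cases l q <;> rfl
    simp [h0, Gr]
  | some i =>
    have hAl := Ar_orth i.2
    -- the vector of the prime `q`
    have h1 : ∀ q, lk (L_r cls) (l q) (some i) =
        pr i.1.2.2 (fun m => (b1r m (ξ q), b2r m (ξ q))) := by
      intro q
      rw [← h q]
      cases hq : l q with
      | none =>
        have : pr i.1.2.2 (fun m => (b1r m (fgr (none : Option (Ir r cls))),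
            b2r m (fgr (none : Option (Ir r cls))))) = false := by
          refine par_false fun m => ?_
          simp [bb, b1r, b2r, fgr]
        rw [this]
        rfl
      | some i' => rfl
    have h2 : ∏ q : Pr z y, (if lk (L_r cls) (l q) (some i) = true then Jr (q : ℕ) p else 1) =
        ∏ m, ((if (i.1.2.2 m).1 = true then sg (sgn p (D1r ξ m)) else 1) *
      (if (i.1.2.2 m).2 = true then sg (sgn p (D2r ξ m)) else 1)) := by
      have h3 : ∀ a : Bool, ∀ b : Pr z y → Bool, (if a = true then sg (sgn p (nb b : ℤ)) else 1) =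
          ∏ q : Pr z y, if a = true then (if q ≠ p ∧ b q = true then Jr (q : ℕ) p else 1)
            else 1 := by
        intro a b
        cases a
        · simp
        · simp only [if_true]
          exact sgn_nb b p
      have h4 : ∀ m, ((if (i.1.2.2 m).1 = true then sg (sgn p (D1r ξ m)) else 1) *
          (if (i.1.2.2 m).2 = true then sg (sgn p (D2r ξ m)) else 1)) =
          ∏ q : Pr z y, ((if (i.1.2.2 m).1 = true then
            (if q ≠ p ∧ b1r m (ξ q) = true then Jr (q : ℕ) p else 1) else 1) *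
            (if (i.1.2.2 m).2 = true then
            (if q ≠ p ∧ b2r m (ξ q) = true then Jr (q : ℕ) p else 1) else 1)) := by
        intro m
        unfold D1r D2r
        rw [h3, h3, ← Finset.prod_mul_distrib]
      rw [prod_congr rfl fun m _ => h4 m, Finset.prod_comm]
      refine Finset.prod_congr rfl fun q _ => ?_
      rw [h1]
      refine bits_r q p _ _ fun hqp => ?_
      rw [hqp, ← h p, hl]
      exact hAl
    rw [h2]
    simp only [Gr, Option.elim]
    ring

end final

/-- the expansion -/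
theorem exp_r (J : Type) [Fintype J] [DecidableEq J] (cls : J → Fin 4)
    (κ : J → Fin 3 → ℤ) (r c z y : ℕ) (hκ : ∀ j k, κ j k ≠ 0)
    (hκz : ∀ j k, (κ j k).natAbs ≤ z) :
    ∑ s ∈ Tup J z y, NBr r cls κ s * ∏ j, gw 1 c (s j) =
    ∑ d ∈ Tup (Ir r cls) z y, (∏ i, gw (w_r cls i) c (d i)) *
      Pool.Agent.W262.RK.Sym (L_r cls) (κ_r cls κ) d := by
  classical
  rw [lhs_eqr, sum_Tup, ← Finset.sum_fiberwise univ
    (fun (l : Pr z y → Option (Ir r cls)) => fun p => fgr (l p))]
  refine Finset.sum_congr rfl fun ξ _ => ?_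
  have h1 : (univ.filter fun l : Pr z y → Option (Ir r cls) => (fun p => fgr (l p)) = ξ) =
      Fintype.piFinset (fun p => univ.filter (fun x : Option (Ir r cls) => fgr x = ξ p)) := by
    ext l
    simp only [Finset.mem_filter, Finset.mem_univ, true_and, Fintype.mem_piFinset, funext_iff]
  have hk : ∀ p : Pr z y, ∀ j i, ¬ ((p : ℕ) : ℤ) ∣ κ j i := by
    intro p j i hd
    have hz : z < p := by
      have := p.2
      unfold PS at this
      exact (Finset.mem_Ioc.1 (Finset.mem_filter.1 this).1).1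
    have h3 := Nat.le_of_dvd (Int.natAbs_pos.mpr (hκ j i)) (Int.natCast_dvd.1 hd)
    have h4 := hκz j i
    omega
  rw [h1, Finset.prod_congr rfl fun p _ => (sum_Gr cls κ c ξ p (hk p)).symm, Finset.prod_univ_sum]
  refine Finset.sum_congr rfl fun l hl => ?_
  rw [Fintype.mem_piFinset] at hl
  exact (rhs_termr cls κ c ξ l fun p => (Finset.mem_filter.1 (hl p)).2).symm

end Pool.Agent.U214.RM
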