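import Mathlib
import Pool.Agent.W262.RK.F4c
import Pool.Agent.W358.RK2.SVR
import Pool.Agent.W358.RK2.GR
import Pool.Agent.U214.RM.Comb
import Pool.Agent.U214.RM.Subr
import Pool.Agent.U214.RM.Ant

/-!
# The moments of `2 ^ rank`
-/

set_option autoImplicit false

namespace Pool.Agent.U214.RM

open Finset Pool.Agent.W262.RK Pool.Agent.W307.RT
open Pool.Agent.W762.RK2 (wc)

variable {J : Type} [Fintype J] [DecidableEq J]

/-- the exponent of the logarithm -/
noncomputable def kap (r n : ℕ) : ℝ := n * (2 ^ r + 2 / 2 ^ r - 3)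

lemma kap_nonneg {r : ℕ} (hr : 1 ≤ r) (n : ℕ) : 0 ≤ kap r n := by
  unfold kap
  refine mul_nonneg (Nat.cast_nonneg n) ?_
  have h1 : (2 : ℝ) ≤ 2 ^ r := by
    calc (2 : ℝ) = 2 ^ 1 := (pow_one 2).symm
      _ ≤ 2 ^ r := pow_le_pow_right₀ (by norm_num) hr
  have h2 : (0 : ℝ) < 2 ^ r := by positivity
  have h3 : (2 : ℝ) ^ r + 2 / 2 ^ r - 3 = (2 ^ r - 1) * (2 ^ r - 2) / 2 ^ r := by
    field_simp
    ring
  rw [h3]
  exact div_nonneg (mul_nonneg (by linarith) (by linarith)) h2.le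

lemma w_r_bd {r : ℕ} (hr : 1 ≤ r) (cls : J → Fin 4) (i : Ir r cls) :
    0 < w_r cls i ∧ w_r cls i ≤ 1 / 2 := by
  unfold w_r wr
  have h : 0 < wc (cls i.1.1) ∧ wc (cls i.1.1) ≤ 1 / 2 := by
    unfold wc
    split_ifs <;> norm_num
  refine ⟨pow_pos h.1 r, ?_⟩
  calc wc (cls i.1.1) ^ r ≤ wc (cls i.1.1) ^ 1 :=
        pow_le_pow_of_le_one h.1.le (by linarith [h.2]) hr
    _ ≤ 1 / 2 := by rw [pow_one]; exact h.2

omit [Fintype J] [DecidableEq J] in
lemma L_r_self {r : ℕ} (cls : J → Fin 4) (i : Ir r cls) : L_r cls i i = false := Ar_orth i.2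

/-- the average of the power -/
theorem ma_r {r : ℕ} (hr : 1 ≤ r) (cls : J → Fin 4) (κ : J → Fin 3 → ℤ) (n c : ℕ)
    (hn : ∀ k, k ≠ 3 → (univ.filter (fun j => cls j = k)).card = n) (hκ : ∀ j k, κ j k ≠ 0) :
    ∃ z0 : ℕ, ∀ z, z0 ≤ z → ∃ C : ℝ, ∀ y, z < y →
      ∑ s ∈ Tup J z y, NBr r cls κ s * ∏ j, gw 1 c (s j) ≤
        C * (Real.log y) ^ ((Fintype.card J : ℝ) + kap r n) := by
  obtain ⟨z0, hz0⟩ := at_thm (Ir r cls) (w_r cls) (L_r cls) (κ_r cls κ) c
    ((Fintype.card J : ℝ) + kap r n) (w_r_bd hr cls) (L_r_self cls)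
    (fun i => kr_ne _ (hκ _) _ _) (fun U hU => comb_r n hn hU)
  refine ⟨max z0 (∑ j, ∑ k, (κ j k).natAbs), fun z hz => ?_⟩
  obtain ⟨C, hC⟩ := hz0 z (le_trans (le_max_left _ _) hz)
  refine ⟨C, fun y hy => ?_⟩
  have hz2 : ∑ j, ∑ k, (κ j k).natAbs ≤ z := le_trans (le_max_right _ _) hz
  rw [exp_r J cls κ r c z y hκ (fun j k => by
    have h1 := single_le_sum (f := fun k => (κ j k).natAbs) (fun _ _ => Nat.zero_le _) (mem_univ k)
    have h2 := single_le_sum (f := fun j => ∑ k, (κ j k).natAbs) (fun _ _ => Nat.zero_le _)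
      (mem_univ j)
    omega)]
  exact le_trans (le_abs_self _) (hC y hy)

/-- the moments for general classes -/
theorem avg_r {r : ℕ} (hr : 1 ≤ r) (cls : J → Fin 4) (n : ℕ)
    (hn : ∀ k, k ≠ 3 → (univ.filter (fun j => cls j = k)).card = n)
    (a : Fin 3 → ℤ) (α β : J → ℤ) (ha : ∀ k, a k ≠ 0) (hα : ∀ j, α j ≠ 0)
    (hR : ∀ j l, j ≠ l → Res α β j l ≠ 0)
    (hF : ∀ t : ℤ, F4 cls a α β t 0 - F4 cls a α β t 1 = F4 cls a α β t 2) :
    ∃ C : ℝ, ∀ X : ℕ, 1 ≤ X → ∑ t ∈ (Icc 1 X).filter (fun t : ℕ => ∀ j, ff α β t j ≠ 0),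
      ((2 : ℝ) ^ Module.finrank ℤ
        (EAB (F4 cls a α β t 0) (F4 cls a α β t 1)).toAffine.Point) ^ r ≤
        C * ((X : ℝ) * (1 + Real.log X) ^ kap r n) := by
  classical
  set κ := kap4 cls a α β with hκdef
  have hκ0 : ∀ j k, κ j k ≠ 0 := kap4_ne cls a α β hα ha hR
  set N := Fintype.card J with hN
  obtain ⟨z0, hz0⟩ := ma_r hr cls κ n N hn hκ0
  set z : ℕ := z0 + (2 * N + 2) + ∑ k, (a k).natAbs + ∑ j, (α j).natAbs +
    ∑ j, ∑ l, (Res α β j l).natAbs + ∑ j, ∑ k, (κ j k).natAbs with hz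
  have hB : Big4 a α β z := by
    refine ⟨⟨by omega, fun p hp hzp => ⟨fun j h => ?_, fun j l hjl h => ?_⟩⟩,
      fun p hp hzp k h => ?_⟩
    · have h1 := Nat.le_of_dvd (Int.natAbs_pos.2 (hα j)) (Int.natCast_dvd.1 h)
      have h2 := single_le_sum (f := fun j => (α j).natAbs) (fun _ _ => Nat.zero_le _) (mem_univ j)
      omega
    · have h1 := Nat.le_of_dvd (Int.natAbs_pos.2 (hR j l hjl)) (Int.natCast_dvd.1 h)
      have h2 := single_le_sum (f := fun l => (Res α β j l).natAbs) (fun _ _ => Nat.zero_le _)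
        (mem_univ l)
      have h3 := single_le_sum (f := fun j => ∑ l, (Res α β j l).natAbs) (fun _ _ => Nat.zero_le _)
        (mem_univ j)
      omega
    · have h1 := Nat.le_of_dvd (Int.natAbs_pos.2 (ha k)) (Int.natCast_dvd.1 h)
      have h2 := single_le_sum (f := fun k => (a k).natAbs) (fun _ _ => Nat.zero_le _) (mem_univ k)
      omega
  have hκz : ∀ j k, (κ j k).natAbs ≤ z := by
    intro j k
    have h1 := single_le_sum (f := fun k => (κ j k).natAbs) (fun _ _ => Nat.zero_le _) (mem_univ k)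
    have h2 := single_le_sum (f := fun j => ∑ k, (κ j k).natAbs) (fun _ _ => Nat.zero_le _)
      (mem_univ j)
    omega
  have hz2 : 2 ≤ z := by omega
  have hzN : 2 * N + 2 ≤ z := by omega
  obtain ⟨C', hC'⟩ := hz0 z (by omega)
  obtain ⟨C, K, y0, hC0, hK1, hcn⟩ := Pool.Agent.W372.RK2.cnt4_of Pool.Agent.W358.RK2.svr J α β
    cls z hB.1
  set y1 : ℕ := y0 + ∑ j, ((α j).natAbs + (β j).natAbs) + 1 with hy1
  set Q : ℝ := (4 : ℝ) ^ r with hQ
  have hQ0 : 0 ≤ Q := by positivity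
  set D : ℝ := ((16 : ℝ) ^ N) ^ r with hD
  have hD1 : 1 ≤ D := one_le_pow₀ (one_le_pow₀ (by norm_num))
  have hlogD : 0 ≤ Real.log D := Real.log_nonneg hD1
  obtain ⟨E, hE0, hE⟩ := bracketQ hQ0 J z (16 * (Real.log D + 1)) hzN (by linarith)
  have hk0 := kap_nonneg hr n
  refine antW (f := fun (t : ℕ) (j : J) => ff α β (t : ℤ) j)
    (T := fun X => (Icc 1 X).filter (fun t : ℕ => ∀ j, ff α β (t : ℤ) j ≠ 0))
    (S := fun X => (X : ℝ)) (G := fun _ s => NBr r cls κ s)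
    (R := fun t : ℕ => ((2 : ℝ) ^ Module.finrank ℤ
        (EAB (F4 cls a α β t 0) (F4 cls a α β t 1)).toAffine.Point) ^ r)
    (C := C * (4 ^ (z + 2)) ^ r) (D := D) (A1 := E * |C'|) (Q := Q) (κ := kap r n)
    (K := K) (y0 := y1) Pool.Agent.W358.RK2.gr hzN (fun X hX => by exact_mod_cast hX)
    (fun X t ht => ?_) (fun y s => NBr_nonneg r cls κ s) (fun t => by positivity) (by positivity)
    hD1 hK1 hQ0 hk0 (fun y hy => ?_) ?_
  · rw [mem_filter] at ht
    refine ⟨ht.2, fun p hp hzp j l hjl h => ?_⟩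
    exact bg_not_dvd hB.1 hp hzp hjl h.1 h.2
  · have hy3 : 3 ≤ y := by omega
    have hyr : (3 : ℝ) ≤ y := by exact_mod_cast hy3
    have hl1 : 1 < Real.log y := by
      rw [Real.lt_log_iff_exp_lt (by linarith)]
      have := Real.exp_one_lt_d9
      linarith
    have hδ : 0 ≤ 16 * (Real.log D + 1) / Real.log y := div_nonneg (by linarith) (by linarith)
    have hm := main_ineqQ hQ0 J z y (NBr r cls κ) (16 * (Real.log D + 1) / Real.log y) N
      (by omega) hδ (NBr_nonneg r cls κ)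
      (fun s e hse => subb_r Pool.Agent.W125.RK2.sub4 Pool.Agent.W342.RK2.xcl r J cls κ z y hz2
        hκ0 hκz s e hse)
    refine hm.trans ?_
    have hn0 : 0 ≤ ∑ s ∈ Tup J z y, NBr r cls κ s * ∏ j, gw 1 N (s j) := by
      refine sum_nonneg fun s hs => mul_nonneg (NBr_nonneg r cls κ s) (prod_nonneg fun j _ => ?_)
      exact gw_nn (by omega) hs j
    have h1 : ∑ s ∈ Tup J z y, NBr r cls κ s * ∏ j, gw 1 N (s j) ≤
        |C'| * ((1 + Real.log y) ^ kap r n * (Real.log y) ^ N) := by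
      refine (hC' y hy).trans ?_
      rw [Real.rpow_add (by linarith), Real.rpow_natCast]
      have e1 : (Real.log y) ^ kap r n ≤ (1 + Real.log y) ^ kap r n :=
        Real.rpow_le_rpow (by linarith) (by linarith) hk0
      have e2 : 0 ≤ (Real.log y) ^ N * (Real.log y) ^ kap r n := by positivity
      calc C' * ((Real.log y) ^ N * (Real.log y) ^ kap r n)
          ≤ |C'| * ((Real.log y) ^ N * (Real.log y) ^ kap r n) :=
            mul_le_mul_of_nonneg_right (le_abs_self _) e2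
        _ ≤ |C'| * ((Real.log y) ^ N * (1 + Real.log y) ^ kap r n) :=
            mul_le_mul_of_nonneg_left (mul_le_mul_of_nonneg_left e1 (by positivity))
              (abs_nonneg _)
        _ = _ := by ring
    calc _ ≤ E * ∑ s ∈ Tup J z y, NBr r cls κ s * ∏ j, gw 1 N (s j) :=
          mul_le_mul_of_nonneg_right (hE y hy) hn0
      _ ≤ E * (|C'| * ((1 + Real.log y) ^ kap r n * (Real.log y) ^ N)) :=
          mul_le_mul_of_nonneg_left h1 hE0
      _ = _ := by ring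
  intro X y Y k hy0 hzy hyK hk s hs v hv u hu h8 T' hT' hT2
  have hy00 : y0 ≤ y := by omega
  have hyX : y ≤ X := le_trans (Nat.le_self_pow (by omega) y) hyK
  have hX1 : 1 ≤ X := by omega
  set g : Finset ℕ → ℝ := fun E => (NL (∏ j, s j) (LLs cls κ s E) : ℝ) with hg
  have hg0 : ∀ E, 0 ≤ g E := fun E => Nat.cast_nonneg _
  have h1 : ∀ t ∈ T', ((2 : ℝ) ^ Module.finrank ℤ
      (EAB (F4 cls a α β t 0) (F4 cls a α β t 1)).toAffine.Point) ^ r ≤
      (4 ^ (z + 2)) ^ r * D ^ k * Q ^ (∑ j, (v j).primeFactors.card) *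
        g (neg3 cls α β t s) ^ r := by
    intro t ht
    have ht' := mem_filter.1 (hT' ht)
    obtain ⟨hts, htv, _⟩ := hT2 t ht
    have hr4 := rank4 Pool.Agent.W214.RK2.desc4 Pool.Agent.W342.RK2.xcl
      Pool.Agent.W342.RK2.locl (X := X) (y := y) (k := k) hB ha hκ0 hκz (hF t) ht'.2 (fun j => by
        unfold ff
        have h3 := Int.natAbs_add_le (α j * (t : ℤ)) (β j)
        rw [Int.natAbs_mul, Int.natAbs_natCast] at h3
        have h4 := single_le_sum (f := fun j => (α j).natAbs + (β j).natAbs)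
          (fun _ _ => Nat.zero_le _) (mem_univ j)
        have h5 := (mem_Icc.1 ht'.1).2
        have h6 : (α j).natAbs + (β j).natAbs ≤ X := by omega
        nlinarith [Nat.zero_le (α j).natAbs, Nat.zero_le (β j).natAbs,
          Nat.mul_le_mul_left (α j).natAbs h5, Nat.mul_le_mul_right X h6,
          Nat.le_mul_of_pos_right (β j).natAbs (show 0 < X by omega)]) hX1 (by omega) hk
    have hts' : s1 α β z y (t : ℤ) = s := hts
    have htv' : s2 α β z y (t : ℤ) = v := htv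
    rw [hts', htv'] at hr4
    have hr5 : (2 : ℝ) ^ Module.finrank ℤ
        (EAB (F4 cls a α β t 0) (F4 cls a α β t 1)).toAffine.Point ≤
        4 ^ (z + 2) * (16 ^ N) ^ k * 4 ^ (∑ j, (v j).primeFactors.card) *
          g (neg3 cls α β t s) := by
      show _ ≤ _ * (NL (∏ j, s j) (LLs cls κ s (neg3 cls α β t s)) : ℝ)
      exact_mod_cast hr4
    have hr6 := pow_le_pow_left₀ (by positivity) hr5 r
    refine hr6.trans (le_of_eq ?_)
    rw [mul_pow, mul_pow, mul_pow, hD, hQ]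
    rw [← pow_mul ((16 : ℝ) ^ N) k r, ← pow_mul ((16 : ℝ) ^ N) r k, mul_comm k r,
      ← pow_mul (4 : ℝ) (∑ j, (v j).primeFactors.card) r,
      ← pow_mul (4 : ℝ) r, mul_comm (∑ j, (v j).primeFactors.card) r]
  have hneg : ∀ t ∈ T', neg3 cls α β t s ∈ (P3 cls s).powerset := by
    intro t _
    rw [mem_powerset]
    exact filter_subset _ _
  have h2 : ∑ t ∈ T', g (neg3 cls α β t s) ^ r =
      ∑ E ∈ (P3 cls s).powerset,
        ((T'.filter (fun t : ℕ => neg3 cls α β t s = E)).card : ℝ) * g E ^ r := by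
    rw [← sum_fiberwise_of_maps_to hneg]
    refine sum_congr rfl fun E _ => ?_
    rw [← nsmul_eq_mul, ← sum_const]
    refine sum_congr rfl fun t ht => ?_
    rw [(mem_filter.1 ht).2]
  set W : ℝ := C * X * (1 / 2) ^ (P3 cls s).card * (∏ j, gw 1 N (s j)) *
        (∏ j, gw 1 N (v j) / v j) * (∏ j, 1 / (u j : ℝ)) / (Real.log y) ^ N with hW
  have h3 : ∀ E ∈ (P3 cls s).powerset,
      ((T'.filter (fun t : ℕ => neg3 cls α β t s = E)).card : ℝ) * g E ^ r ≤ W * g E ^ r := by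
    intro E _
    refine mul_le_mul_of_nonneg_right ?_ (pow_nonneg (hg0 E) r)
    refine le_trans ?_ (hcn X y Y hy00 hzy hyK s hs v hv u hu h8 E)
    have h4 : T'.filter (fun t : ℕ => neg3 cls α β t s = E) ⊆
        (Icc 1 X).filter (fun t : ℕ => s1 α β z y t = s ∧ s2 α β z y t = v ∧
          (∀ j, (u j : ℤ) ∣ ff α β t j) ∧ neg3 cls α β t s = E) := by
      intro t ht
      rw [mem_filter] at ht
      obtain ⟨hts, htv, htu⟩ := hT2 t ht.1
      rw [mem_filter]
      exact ⟨(mem_filter.1 (hT' ht.1)).1, hts, htv, htu, ht.2⟩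
    exact_mod_cast card_le_card h4
  calc ∑ t ∈ T', ((2 : ℝ) ^ Module.finrank ℤ
          (EAB (F4 cls a α β t 0) (F4 cls a α β t 1)).toAffine.Point) ^ r
      ≤ ∑ t ∈ T', (4 ^ (z + 2)) ^ r * D ^ k * Q ^ (∑ j, (v j).primeFactors.card) *
          g (neg3 cls α β t s) ^ r := sum_le_sum h1
    _ = (4 ^ (z + 2)) ^ r * D ^ k * Q ^ (∑ j, (v j).primeFactors.card) *
          ∑ E ∈ (P3 cls s).powerset,
            ((T'.filter (fun t : ℕ => neg3 cls α β t s = E)).card : ℝ) * g E ^ r := by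
        rw [← mul_sum, h2]
    _ ≤ (4 ^ (z + 2)) ^ r * D ^ k * Q ^ (∑ j, (v j).primeFactors.card) *
          ∑ E ∈ (P3 cls s).powerset, W * g E ^ r :=
        mul_le_mul_of_nonneg_left (sum_le_sum h3) (by positivity)
    _ = _ := by
        have e1 : NBr r cls κ s = (1 / 2) ^ (P3 cls s).card *
          ∑ E ∈ (P3 cls s).powerset, g E ^ r := rfl
        have e2 : (∏ j, Q ^ (v j).primeFactors.card * (gw 1 N (v j) / v j)) =
            Q ^ (∑ j, (v j).primeFactors.card) * ∏ j, (gw 1 N (v j) / v j) := by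
          rw [prod_mul_distrib, prod_pow_eq_pow_sum]
        rw [← mul_sum, e1, e2, hW]
        ring

end Pool.Agent.U214.RM
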