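import Mathlib

/-!
# Parity of the number of true values and orthogonal sets of bit vectors
-/

set_option autoImplicit false

namespace Pool.Agent.U214.RM

open Finset

/-- the parity of the number of the true values -/
def par {S : Type} [Fintype S] (b : S → Bool) : Bool :=
  decide (Odd (univ.filter (fun s => b s = true)).card)

lemma prod_par {S : Type} [Fintype S] {J : ℝ} (hJ : J * J = 1) (b : S → Bool) :
    (∏ s, if b s = true then J else 1) = if par b = true then J else 1 := by
  rw [← Finset.prod_filter, prod_const]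
  unfold par
  rcases Nat.even_or_odd (univ.filter (fun s => b s = true)).card with h | h
  · rw [if_neg (by rw [decide_eq_true_eq, Nat.not_odd_iff_even]; exact h)]
    obtain ⟨c, hc⟩ := h
    rw [hc, ← two_mul, pow_mul, pow_two, hJ, one_pow]
  · rw [if_pos (by rw [decide_eq_true_eq]; exact h)]
    obtain ⟨c, hc⟩ := h
    rw [hc, pow_add, pow_mul, pow_two, hJ, one_pow, one_mul, pow_one]

/-- the sign of a bit -/
def sb (b : Bool) : ℝ := if b = true then -1 else 1

lemma sb_sq (b : Bool) : sb b * sb b = 1 := by cases b <;> norm_num [sb]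

lemma sb_par {S : Type} [Fintype S] (b : S → Bool) : sb (par b) = ∏ s, sb (b s) := by
  unfold sb
  rw [← prod_par (by norm_num : (-1 : ℝ) * (-1) = 1)]

/-- the symplectic product of two pairs of bit vectors -/
def om {S : Type} [Fintype S] (a b : (S → Bool) × (S → Bool)) : Bool :=
  xor (par fun s => a.1 s && b.2 s) (par fun s => b.1 s && a.2 s)

/-- the sum of the character over all vectors -/
lemma sum_char {S : Type} [Fintype S] [DecidableEq S] (b c : (S → Bool) × (S → Bool)) :
    ∑ a : (S → Bool) × (S → Bool), sb (om a b) * sb (om a c) =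
      if b = c then (4 : ℝ) ^ Fintype.card S else 0 := by
  have h1 : ∀ a : (S → Bool) × (S → Bool), sb (om a b) * sb (om a c) =
      (∏ s, (sb (a.1 s && b.2 s) * sb (a.1 s && c.2 s))) *
        ∏ s, (sb (b.1 s && a.2 s) * sb (c.1 s && a.2 s)) := by
    intro a
    have hx : ∀ x y : Bool, sb (xor x y) = sb x * sb y := by
      intro x y
      cases x <;> cases y <;> norm_num [sb]
    unfold om
    rw [hx, hx, sb_par, sb_par, sb_par, sb_par, prod_mul_distrib, prod_mul_distrib]
    ring
  rw [sum_congr rfl fun a _ => h1 a, Fintype.sum_prod_type]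
  simp only
  rw [← Finset.sum_mul_sum]
  have h2 : ∑ a : S → Bool, ∏ s, (sb (a s && b.2 s) * sb (a s && c.2 s)) =
      ∏ s, (if b.2 s = c.2 s then (2 : ℝ) else 0) := by
    have h3 := Finset.prod_univ_sum (fun _ : S => (univ : Finset Bool))
      (fun s x => sb (x && b.2 s) * sb (x && c.2 s))
    rw [Fintype.piFinset_univ] at h3
    rw [← h3]
    refine prod_congr rfl fun s _ => ?_
    rw [Fintype.sum_bool]
    cases b.2 s <;> cases c.2 s <;> norm_num [sb]
  have h3 : ∑ a : S → Bool, ∏ s, (sb (b.1 s && a s) * sb (c.1 s && a s)) =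
      ∏ s, (if b.1 s = c.1 s then (2 : ℝ) else 0) := by
    have h3 := Finset.prod_univ_sum (fun _ : S => (univ : Finset Bool))
      (fun s x => sb (b.1 s && x) * sb (c.1 s && x))
    rw [Fintype.piFinset_univ] at h3
    rw [← h3]
    refine prod_congr rfl fun s _ => ?_
    rw [Fintype.sum_bool]
    cases b.1 s <;> cases c.1 s <;> norm_num [sb]
  rw [h2, h3]
  by_cases hbc : b = c
  · subst hbc
    simp only [if_true, prod_const, card_univ]
    rw [← mul_pow]
    norm_num
  · rw [if_neg hbc]
    by_cases h4 : b.2 = c.2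
    · have h5 : b.1 ≠ c.1 := fun h => hbc (Prod.ext h h4)
      obtain ⟨s, hs⟩ := Function.ne_iff.1 h5
      rw [prod_eq_zero (mem_univ s) (if_neg hs) (f := fun s => if b.1 s = c.1 s then (2 : ℝ) else 0),
        mul_zero]
    · obtain ⟨s, hs⟩ := Function.ne_iff.1 h4
      rw [prod_eq_zero (mem_univ s) (if_neg hs) (f := fun s => if b.2 s = c.2 s then (2 : ℝ) else 0),
        zero_mul]

/-- orthogonal sets are small -/
lemma orth {S : Type} [Fintype S] [DecidableEq S] (A B : Finset ((S → Bool) × (S → Bool)))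
    (h : ∀ a ∈ A, ∀ b ∈ B, om a b = false) : A.card * B.card ≤ 4 ^ Fintype.card S := by
  rcases B.eq_empty_or_nonempty with hB | hB
  · rw [hB]; simp
  have h1 : ∑ a : (S → Bool) × (S → Bool), (∑ b ∈ B, sb (om a b)) ^ 2 =
      (4 : ℝ) ^ Fintype.card S * B.card := by
    have h2 : ∀ a : (S → Bool) × (S → Bool), (∑ b ∈ B, sb (om a b)) ^ 2 =
        ∑ b ∈ B, ∑ c ∈ B, sb (om a b) * sb (om a c) := by
      intro a
      rw [pow_two, Finset.sum_mul_sum]
    rw [sum_congr rfl fun a _ => h2 a, Finset.sum_comm]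
    have h3 : ∀ b ∈ B, ∑ a : (S → Bool) × (S → Bool), ∑ c ∈ B, sb (om a b) * sb (om a c) =
        (4 : ℝ) ^ Fintype.card S := by
      intro b hb
      rw [Finset.sum_comm, sum_congr rfl fun c _ => sum_char b c, Finset.sum_ite_eq, if_pos hb]
    rw [sum_congr rfl h3, sum_const, nsmul_eq_mul, mul_comm]
  have h4 : ∑ a ∈ A, (∑ b ∈ B, sb (om a b)) ^ 2 ≤
      ∑ a : (S → Bool) × (S → Bool), (∑ b ∈ B, sb (om a b)) ^ 2 :=
    sum_le_sum_of_subset_of_nonneg (subset_univ _) fun _ _ _ => sq_nonneg _
  have h5 : ∑ a ∈ A, (∑ b ∈ B, sb (om a b)) ^ 2 = (A.card : ℝ) * (B.card : ℝ) ^ 2 := by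
    have h6 : ∀ a ∈ A, (∑ b ∈ B, sb (om a b)) ^ 2 = (B.card : ℝ) ^ 2 := by
      intro a ha
      have h7 : ∑ b ∈ B, sb (om a b) = B.card := by
        rw [sum_congr rfl fun b hb => by rw [h a ha b hb]]
        simp [sb]
      rw [h7]
    rw [sum_congr rfl h6, sum_const, nsmul_eq_mul]
  rw [h5, h1] at h4
  have hBp : (0 : ℝ) < B.card := by exact_mod_cast hB.card_pos
  have h8 : (A.card : ℝ) * B.card ≤ 4 ^ Fintype.card S := by
    have h9 : (A.card : ℝ) * B.card * B.card ≤ 4 ^ Fintype.card S * B.card := by nlinarith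
    exact le_of_mul_le_mul_right h9 hBp
  exact_mod_cast h8

end Pool.Agent.U214.RM
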