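import Pool.Agent.W762.RK2.EXP4b
import Pool.Agent.U214.RM.Par

/-!
# Expansion of the powers of the local counts into symbols: definitions and the local identity
-/

set_option autoImplicit false

namespace Pool.Agent.U214.RM

open Finset Pool.Agent.W262.RK Pool.Agent.W108.RK Pool.Agent.W762.RK2

/-- `r` pairs of bits -/
abbrev V (r : ℕ) : Type := Fin r → Bool × Bool

/-- the pairing of two pairs of bits -/
def bb (x v : Bool × Bool) : Bool := xor (x.1 && v.1) (x.2 && v.2)

variable {r : ℕ}

/-- the pairing -/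
def pr (x v : V r) : Bool := par fun l => bb (x l) (v l)

/-- the allowed pairs, one component -/
def A1 (c : Fin 4) (v x : Bool × Bool) : Bool :=
  decide (c = 3) || ((decide (v = (false, false)) || decide (v = ec c)) &&
    (decide (x = (false, false)) || decide (x = (ec c).swap)))

/-- the allowed pairs -/
def Ar (c : Fin 4) (v x : V r) : Bool := decide (∀ l, A1 c (v l) (x l) = true) && !(pr x v)

/-- the constants, first part -/
def Hc (k : Fin 3 → ℤ) (v : Bool × Bool) : ℤ :=
  if v = (true, false) then k 0 else if v = (false, true) then k 0 * k 1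
  else if v = (true, true) then k 1 else 1

/-- the constants, second part -/
def Gc (k : Fin 3 → ℤ) (v : Bool × Bool) : ℤ :=
  if v = (true, false) then k 0 * k 2 else if v = (false, true) then -(k 0)
  else if v = (true, true) then -(k 2) else 1

/-- the constants of one component -/
def k1 (c : Fin 4) (k : Fin 3 → ℤ) (v x : Bool × Bool) : ℤ :=
  if c = 3 then (if x.1 = true then Hc k v else 1) * (if x.2 = true then Gc k v else 1)
  else if v = (false, false) ∨ x = (false, false) then 1 else k 0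

/-- the constants -/
def kr (c : Fin 4) (k : Fin 3 → ℤ) (v x : V r) : ℤ := ∏ l, k1 c k (v l) (x l)

/-- the weights -/
noncomputable def wr (r : ℕ) (c : Fin 4) : ℝ := (wc c) ^ r

lemma Hc_ne {k : Fin 3 → ℤ} (hk : ∀ i, k i ≠ 0) (v : Bool × Bool) : Hc k v ≠ 0 := by
  unfold Hc
  split_ifs
  · exact hk _
  · exact mul_ne_zero (hk _) (hk _)
  · exact hk _
  · exact one_ne_zero

lemma Gc_ne {k : Fin 3 → ℤ} (hk : ∀ i, k i ≠ 0) (v : Bool × Bool) : Gc k v ≠ 0 := by
  unfold Gc
  split_ifs
  · exact mul_ne_zero (hk _) (hk _)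
  · exact neg_ne_zero.2 (hk _)
  · exact neg_ne_zero.2 (hk _)
  · exact one_ne_zero

lemma k1_ne (c : Fin 4) {k : Fin 3 → ℤ} (hk : ∀ i, k i ≠ 0) (v x : Bool × Bool) :
    k1 c k v x ≠ 0 := by
  unfold k1
  by_cases hc : c = 3
  · rw [if_pos hc]
    refine mul_ne_zero ?_ ?_
    · split_ifs
      · exact Hc_ne hk v
      · exact one_ne_zero
    · split_ifs
      · exact Gc_ne hk v
      · exact one_ne_zero
  · rw [if_neg hc]
    split_ifs
    · exact one_ne_zero
    · exact hk _

lemma kr_ne (c : Fin 4) {k : Fin 3 → ℤ} (hk : ∀ i, k i ≠ 0) (v x : V r) : kr c k v x ≠ 0 :=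
  prod_ne_zero_iff.2 fun _ _ => k1_ne c hk _ _

/-- the bits of the condition of the class 3 without the sign -/
def h3 (k : Fin 3 → ℤ) (p : ℕ) (v : Bool × Bool) : Bool :=
  xor (v.1 && !v.2 && sg0 p (k 0)) (xor (!v.1 && v.2 && sg0 p (k 0 * k 1))
      (v.1 && v.2 && sg0 p (k 1)))

/-- the bits of the condition of the class 3 without the sign -/
def g3 (k : Fin 3 → ℤ) (p : ℕ) (v : Bool × Bool) : Bool :=
  xor (v.1 && !v.2 && sg0 p (k 0 * k 2)) (xor (!v.1 && v.2 && sg0 p (-k 0))
      (v.1 && v.2 && sg0 p (-k 2)))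

lemma sg_h3 {k : Fin 3 → ℤ} {p : ℕ} (hp : p.Prime) (hk : ∀ i, ¬ (p : ℤ) ∣ k i)
    (v : Bool × Bool) : sg (h3 k p v) = Jr (Hc k v) p := by
  have hmul : ∀ i j, ¬ (p : ℤ) ∣ k i * k j := by
    intro i j hd
    rcases (Nat.prime_iff_prime_int.1 hp).dvd_or_dvd hd with h' | h'
    · exact hk i h'
    · exact hk j h'
  have e1 := Jr_dvd_ne hp (hk 0)
  have e2 := Jr_dvd_ne hp (hmul 0 1)
  have e3 := Jr_dvd_ne hp (hk 1)
  have e5 : Jr 1 p = 1 := Jr_one_left p
  obtain ⟨v1, v2⟩ := v
  cases v1 <;> cases v2 <;> simp [h3, Hc, e1, e2, e3, e5] <;> simp [sg]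

lemma sg_g3 {k : Fin 3 → ℤ} {p : ℕ} (hp : p.Prime) (hk : ∀ i, ¬ (p : ℤ) ∣ k i)
    (v : Bool × Bool) : sg (g3 k p v) = Jr (Gc k v) p := by
  have hmul : ∀ i j, ¬ (p : ℤ) ∣ k i * k j := by
    intro i j hd
    rcases (Nat.prime_iff_prime_int.1 hp).dvd_or_dvd hd with h' | h'
    · exact hk i h'
    · exact hk j h'
  have hneg : ∀ i, ¬ (p : ℤ) ∣ -k i := fun i h' => hk i ((dvd_neg).1 h')
  have e1 := Jr_dvd_ne hp (hmul 0 2)
  have e2 := Jr_dvd_ne hp (hneg 0)
  have e3 := Jr_dvd_ne hp (hneg 2)
  have e5 : Jr 1 p = 1 := Jr_one_left p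
  obtain ⟨v1, v2⟩ := v
  cases v1 <;> cases v2 <;> simp [g3, Gc, e1, e2, e3, e5] <;> simp [sg]

lemma LL3 (k : Fin 3 → ℤ) (neg : Bool) (p : ℕ) (v : Bool × Bool) (h g : Bool) :
    LL 3 k neg p v.1 v.2 h g ↔ h = xor (v.1 && neg) (h3 k p v) ∧ g = xor (v.2 && neg) (g3 k p v) := by
  unfold LL h3 g3
  rw [if_neg (by decide), if_neg (by decide), if_neg (by decide)]

lemma ind3 (h g h0 g0 n1 n2 : Bool) :
    (ind (h = xor n1 h0 ∧ g = xor n2 g0) : ℝ) =
      (1 / 4) * (1 + sg h * (sg n1 * sg h0)) * (1 + sg g * (sg n2 * sg g0)) := by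
  unfold ind
  cases h <;> cases g <;> cases h0 <;> cases g0 <;> cases n1 <;> cases n2 <;>
    simp [sg] <;> norm_num

/-- the sign factor -/
def ng (c : Fin 4) (neg : Bool) (x v : Bool × Bool) : ℝ :=
  if decide (c = 3) = true ∧ neg = true ∧ bb x v = true then -1 else 1

/-- one component -/
lemma loc1 (c : Fin 4) (k : Fin 3 → ℤ) (neg : Bool) {p : ℕ} (hp : p.Prime)
    (hk : ∀ i, ¬ (p : ℤ) ∣ k i) (v : Bool × Bool) (h g : Bool) :
    ind (LL c k neg p v.1 v.2 h g) =
      ∑ x : Bool × Bool, if A1 c v x = true then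
        wc c * (ng c neg x v * (Jr (k1 c k v x) p * ((if x.1 = true then sg h else 1) *
          (if x.2 = true then sg g else 1)))) else 0 := by
  by_cases hc : c = 3
  · subst hc
    have e1 := sg_h3 hp hk v
    have e2 := sg_g3 hp hk v
    have e5 : Jr 1 p = 1 := Jr_one_left p
    rw [show (LL 3 k neg p v.1 v.2 h g) = (h = xor (v.1 && neg) (h3 k p v) ∧
      g = xor (v.2 && neg) (g3 k p v)) from propext (LL3 k neg p v h g)]
    rw [ind3]
    simp only [Fintype.sum_prod_type, Fintype.sum_bool]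
    simp only [A1, k1, ng, wc, decide_true, Bool.true_or, if_true, true_and, Bool.false_eq_true,
      if_false, one_mul, mul_one, Jr_mul_left, e5, bb]
    rw [e1, e2]
    generalize Jr (Hc k v) p = a
    generalize Jr (Gc k v) p = b
    obtain ⟨v1, v2⟩ := v
    cases v1 <;> cases v2 <;> cases neg <;> cases h <;> cases g <;> simp [sg] <;> ring
  · have hc' : ∀ c : Fin 4, c ≠ 3 → c = 0 ∨ c = 1 ∨ c = 2 := by decide
    have e4 : Jr (k 0) p = sg (sg0 p (k 0)) := Jr_dvd_ne hp (hk 0)
    have e5 : Jr 1 p = 1 := Jr_one_left p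
    obtain ⟨v1, v2⟩ := v
    simp only [Fintype.sum_prod_type, Fintype.sum_bool]
    have hng : ∀ x v, ng c neg x v = 1 := by
      intro x v
      unfold ng
      rw [if_neg]
      rintro ⟨h1, _⟩
      exact hc (of_decide_eq_true h1)
    simp only [hng]
    generalize ha : sg0 p (k 0) = a at *
    rcases hc' c hc with rfl | rfl | rfl <;> cases v1 <;> cases v2 <;>
      simp [k1, wc, A1, ec, LL, ind, e4, e5, ha] <;>
      cases h <;> cases g <;> cases a <;> simp [sg] <;> norm_num

lemma sg_eq_sb (b : Bool) : sg b = sb b := rfl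

/-- the product of the sign factors -/
lemma prod_ng (c : Fin 4) (neg : Bool) (x v : V r) :
    ∏ l, ng c neg (x l) (v l) =
      if decide (c = 3) = true ∧ neg = true ∧ pr x v = true then -1 else 1 := by
  by_cases h : decide (c = 3) = true ∧ neg = true
  · have h1 : ∀ l, ng c neg (x l) (v l) = if bb (x l) (v l) = true then (-1 : ℝ) else 1 := by
      intro l
      unfold ng
      simp [h.1, h.2]
    rw [prod_congr rfl fun l _ => h1 l, prod_par (by norm_num)]
    unfold pr
    simp [h.1, h.2]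
  · have h1 : ∀ l, ng c neg (x l) (v l) = 1 := by
      intro l
      unfold ng
      rw [if_neg (fun h2 => h ⟨h2.1, h2.2.1⟩)]
    rw [prod_congr rfl fun l _ => h1 l, prod_const_one, if_neg (fun h2 => h ⟨h2.1, h2.2.1⟩)]

lemma A1_bb : ∀ (c : Fin 4) (v x : Bool × Bool), c ≠ 3 → A1 c v x = true → bb x v = false := by
  decide

lemma par_false {S : Type} [Fintype S] {b : S → Bool} (h : ∀ s, b s = false) : par b = false := by
  unfold par
  rw [filter_false_of_mem (fun s _ => by rw [h s]; decide)]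
  simp

/-- the local identity -/
lemma loc_r (c : Fin 4) (k : Fin 3 → ℤ) {p : ℕ} (hp : p.Prime) (hk : ∀ i, ¬ (p : ℤ) ∣ k i)
    (v : V r) (h g : Fin r → Bool) :
    (∏ l, ind (LL c k true p (v l).1 (v l).2 (h l) (g l)) +
      ∏ l, ind (LL c k false p (v l).1 (v l).2 (h l) (g l))) / 2 =
      ∑ x : V r, if Ar c v x = true then
        wr r c * (Jr (kr c k v x) p * ∏ l, ((if (x l).1 = true then sg (h l) else 1) *
          (if (x l).2 = true then sg (g l) else 1))) else 0 := by
  have h1 : ∀ neg : Bool, ∏ l, ind (LL c k neg p (v l).1 (v l).2 (h l) (g l)) =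
      ∑ x : V r, if (∀ l, A1 c (v l) (x l) = true) then
        wr r c * ((if decide (c = 3) = true ∧ neg = true ∧ pr x v = true then -1 else 1) *
          (Jr (kr c k v x) p * ∏ l, ((if (x l).1 = true then sg (h l) else 1) *
          (if (x l).2 = true then sg (g l) else 1)))) else 0 := by
    intro neg
    rw [prod_congr rfl fun l _ => loc1 c k neg hp hk (v l) (h l) (g l), Finset.prod_univ_sum,
      Fintype.piFinset_univ]
    refine sum_congr rfl fun x _ => ?_
    by_cases hA : ∀ l, A1 c (v l) (x l) = true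
    · rw [if_pos hA, prod_congr rfl fun l _ => if_pos (hA l), prod_mul_distrib, prod_mul_distrib,
        prod_mul_distrib, prod_const, card_univ, Fintype.card_fin, prod_ng]
      unfold wr kr
      rw [Jr_prod_left]
    · rw [if_neg hA]
      push Not at hA
      obtain ⟨l, hl⟩ := hA
      exact prod_eq_zero (mem_univ l) (if_neg hl)
  rw [h1, h1, ← sum_add_distrib, sum_div]
  refine sum_congr rfl fun x _ => ?_
  unfold Ar
  by_cases hA : ∀ l, A1 c (v l) (x l) = true
  · simp only [if_pos hA, decide_eq_true hA, Bool.true_and, Bool.false_eq_true, false_and,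
      and_false, if_false, one_mul]
    by_cases hpr : pr x v = true
    · by_cases hc : c = 3
      · simp [hpr, hc]
      · exfalso
        have : pr x v = false := par_false fun l => A1_bb c _ _ hc (hA l)
        rw [this] at hpr
        exact absurd hpr (by decide)
    · have hpr' : pr x v = false := by simpa using hpr
      simp [hpr']
  · simp only [if_neg hA, decide_eq_false hA, Bool.false_and, Bool.false_eq_true, if_false]
    norm_num

end Pool.Agent.U214.RM
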